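import Mathlib
import Pool.Agent.H21.DiagDefs
import Pool.Agent.H21.Diag

namespace Pool.Agent.Results.MP_6c430b_al.Undecidable

open Pool.Agent.H21.Diag

theorem result : ¬ ∃ f : Rels × List ℕ → Bool, Computable f ∧
    ∀ R w, Valid R w → (f (R, w) = true ↔ Nontrivial (D R w)) := by
  rintro ⟨f, hf, h⟩
  obtain ⟨R, W, p, hW, hp, k⟩ := main
  refine hp (ComputablePred.computable_iff.2 ⟨_, hf.comp ((Computable.const R).pair hW),
    funext fun n => propext ?_⟩)
  rw [h _ _ (k n).1]
  refine ⟨fun hn => ?_, fun hn => by_contra fun h' => ?_⟩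
  · obtain ⟨χ, g, e⟩ := (k n).2.2 hn
    exact ⟨g, 1, fun e' => e (by rw [e', map_one])⟩
  · exact not_subsingleton _ ((k n).2.1 h')

end Pool.Agent.Results.MP_6c430b_al.Undecidable
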